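import Pool.Agent.helper76.MC.Defs

/-! # Project MC: P0 (product formulas for the patterns) -/

namespace Pool.Agent.helper76.MC

open Finset Pool.Agent.helper34.DH Pool.Agent.helper76.FV Pool.Agent.helper76.LP
open Pool.Agent.helper76.UR
open Matrix (SpecialLinearGroup)

/-! ### torsion and convolution -/

theorem P0_zero_of_coprime {m a b : ℕ} (hab : a.Coprime b) (x : ZMod m) (ha : a • x = 0)
    (hb : b • x = 0) : x = 0 := by
  have h1 : addOrderOf x ∣ a := addOrderOf_dvd_iff_nsmul_eq_zero.2 ha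
  have h2 : addOrderOf x ∣ b := addOrderOf_dvd_iff_nsmul_eq_zero.2 hb
  have h3 : addOrderOf x ∣ 1 := hab ▸ Nat.dvd_gcd h1 h2
  have h4 : (1 : ℕ) • x = 0 := addOrderOf_dvd_iff_nsmul_eq_zero.1 h3
  simpa using h4

theorem P0_conv {m : ℕ} [NeZero m] (e e' : ZMod m → ℕ) (a b : ℕ) (hab : a.Coprime b)
    (he : ∀ x, e x ≠ 0 → a • x = 0) (he' : ∀ x, e' x ≠ 0 → b • x = 0) (y w : ZMod m)
    (hy : a • y = 0) (hw : b • w = 0) : conv e e' (y + w) = e y * e' w := by
  unfold conv
  rw [Finset.sum_eq_single y]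
  · rw [add_sub_cancel_left]
  · intro u _ hu
    by_contra hne
    have h1 : e u ≠ 0 := fun h => hne (by rw [h, zero_mul])
    have h2 : e' (y + w - u) ≠ 0 := fun h => hne (by rw [h, mul_zero])
    have h3 := he u h1
    have h4 := he' _ h2
    have h5 : a • (y - u) = 0 := by rw [nsmul_sub, hy, h3, sub_zero]
    have h6 : b • (y - u) = 0 := by
      have : y - u = (y + w - u) - w := by abel
      rw [this, nsmul_sub, h4, hw, sub_zero]
    exact hu (sub_eq_zero.1 (P0_zero_of_coprime hab _ h5 h6)).symm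
  · intro h
    exact absurd (Finset.mem_univ _) h

theorem P0_vp_supp (m p : ℕ) [NeZero m] (hpm : p ∣ m) (x : ZMod m) (hx : vp m p x ≠ 0) :
    p • x = 0 := by
  by_contra hne
  apply hx
  unfold vp
  have h0 : x ≠ 0 := by
    rintro rfl
    exact hne (by simp)
  rw [if_neg h0, zero_add, Finset.card_eq_zero, Finset.filter_eq_empty_iff]
  rintro k - ⟨-, -, hk⟩
  apply hne
  rw [← hk, nsmul_eq_mul]
  have h1 : ((p * (k * (m / p)) : ℕ) : ZMod m) = 0 := by
    rw [ZMod.natCast_eq_zero_iff]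
    have : p * (k * (m / p)) = k * m := by
      rw [mul_left_comm, Nat.mul_div_cancel' hpm]
    rw [this]
    exact Dvd.intro_left k rfl
  rw [← h1]
  push_cast
  ring

theorem P0_pat_supp (m : ℕ) [NeZero m] (four : Bool) (h4 : four = true → 4 ∣ m) (R : List ℕ)
    (hR : ∀ p ∈ R, p ∣ m) (x : ZMod m) (hx : pat m four R x ≠ 0) : (4 * R.prod) • x = 0 := by
  induction R generalizing x with
  | nil =>
    unfold pat at hx
    cases four with
    | true =>
      have hx' : kp m x ≠ 0 := by simpa using hx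
      unfold kp at hx'
      have h1 : x = LP.emb 4 m 1 := by
        by_contra h
        rw [if_neg h] at hx'
        exact hx' rfl
      rw [h1]
      have h2 : (4 : ℕ) • LP.emb 4 m (1 : ZMod 4) = 0 := by
        have := (nsmul_emb_eq_zero (h4 rfl) 4 1).2 dvd_rfl
        simpa using this
      simpa using h2
    | false =>
      have h1 : x = 0 := by
        by_contra h
        apply hx
        simp [h]
      rw [h1]
      simp
  | cons p R ih =>
    unfold pat conv at hx
    obtain ⟨u, -, hu⟩ := Finset.exists_ne_zero_of_sum_ne_zero hx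
    have h1 : vp m p u ≠ 0 := fun h => hu (by rw [h, zero_mul])
    have h2 : pat m four R (x - u) ≠ 0 := fun h => hu (by rw [h, mul_zero])
    have h3 := P0_vp_supp m p (hR p (by simp)) u h1
    have h4' := ih (fun q hq => hR q (by simp [hq])) (x - u) h2
    have h5 : x = u + (x - u) := by abel
    rw [h5, nsmul_add]
    have h6 : (4 * (p :: R).prod) • u = 0 := by
      rw [List.prod_cons, show 4 * (p * R.prod) = (4 * R.prod) * p by ring, mul_nsmul', h3,
        nsmul_zero]
    have h7 : (4 * (p :: R).prod) • (x - u) = 0 := by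
      rw [List.prod_cons, show 4 * (p * R.prod) = p * (4 * R.prod) by ring, mul_nsmul', h4',
        nsmul_zero]
    rw [h6, h7, add_zero]

theorem P0_nsmul_of_dvd {m a n : ℕ} (h : a ∣ n) (x : ZMod m) (hx : a • x = 0) : n • x = 0 := by
  obtain ⟨k, rfl⟩ := h
  rw [mul_comm, mul_nsmul', hx, nsmul_zero]

theorem P0_nsmul_sum {m : ℕ} (N : ℕ) (R : List ℕ) (y : ℕ → ZMod m)
    (h : ∀ q ∈ R, N • y q = 0) : N • (R.map y).sum = 0 := by
  induction R with
  | nil => simp
  | cons p R ih =>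
    rw [List.map_cons, List.sum_cons, nsmul_add, h p (by simp),
      ih (fun q hq => h q (by simp [hq])), add_zero]

/-- the pattern of a sum of components -/
theorem P0_pat (m : ℕ) [NeZero m] (four : Bool) (h4 : four = true → 4 ∣ m) (R : List ℕ)
    (hRn : R.Nodup) (hR : ∀ p ∈ R, p.Prime ∧ Odd p ∧ p ∣ m) (y : ℕ → ZMod m)
    (hy : ∀ p ∈ R, p • y p = 0) (y2 : ZMod m) (h2 : four = true → (4 : ℕ) • y2 = 0)
    (h2' : four = false → y2 = 0) :
    pat m four R ((R.map y).sum + y2) =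
      (R.map fun p => vp m p (y p)).prod * (if four = true then kp m y2 else 1) := by
  induction R with
  | nil =>
    unfold pat
    cases four with
    | true => simp
    | false => simp [h2' rfl]
  | cons p R ih =>
    have hp := hR p (by simp)
    have hRn' := List.nodup_cons.1 hRn
    have ih' := ih hRn'.2 (fun q hq => hR q (by simp [hq])) (fun q hq => hy q (by simp [hq]))
    have hco : p.Coprime (4 * R.prod) := by
      apply Nat.Coprime.mul_right
      · have : Nat.Coprime p (2 ^ 2) := Nat.Coprime.pow_right 2 (hp.2.1.coprime_two_right)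
        simpa using this
      · apply Nat.coprime_list_prod_right_iff.2
        intro q hq
        refine (Nat.coprime_primes hp.1 (hR q (by simp [hq])).1).2 ?_
        rintro rfl
        exact hRn'.1 hq
    have hw : (4 * R.prod) • ((R.map y).sum + y2) = 0 := by
      rw [nsmul_add]
      have e1 : (4 * R.prod) • (R.map y).sum = 0 := by
        refine P0_nsmul_sum _ R y fun q hq => ?_
        exact P0_nsmul_of_dvd ((List.dvd_prod hq).trans (Dvd.intro_left 4 rfl)) _
          (hy q (by simp [hq]))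
      have e2 : (4 * R.prod) • y2 = 0 := by
        cases four with
        | true => rw [mul_comm, mul_nsmul', h2 rfl, nsmul_zero]
        | false => rw [h2' rfl, nsmul_zero]
      rw [e1, e2, add_zero]
    unfold pat
    rw [List.map_cons, List.sum_cons, add_assoc,
      P0_conv (vp m p) (pat m four R) p (4 * R.prod) hco (P0_vp_supp m p hp.2.2)
        (P0_pat_supp m four h4 R (fun q hq => (hR q (by simp [hq])).2.2)) (y p) _
        (hy p (by simp)) hw, ih', List.map_cons, List.prod_cons, mul_assoc]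

/-! ### the functions at one prime -/

theorem P0_vp_emb (m p : ℕ) [NeZero m] [Fact p.Prime] (hpm : p ∣ m) (a : ZMod p) :
    vp m p (LP.emb p m a) = if IsSquare a then 1 else 0 := by
  unfold vp
  have hinj := emb_injective hpm
  have hk : ∀ k ∈ Finset.range p, (((k * (m / p) : ℕ) : ZMod m) = LP.emb p m a ↔ k = a.val) := by
    intro k hk
    rw [Finset.mem_range] at hk
    have h1 : ((k * (m / p) : ℕ) : ZMod m) = LP.emb p m (k : ZMod p) :=
      (emb_natCast hpm k).symm
    rw [h1]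
    constructor
    · intro h
      have h2 := hinj h
      rw [← h2, ZMod.val_natCast, Nat.mod_eq_of_lt hk]
    · intro h
      rw [h, ZMod.natCast_zmod_val]
  by_cases ha : a = 0
  · subst ha
    rw [if_pos LP.emb_zero, if_pos IsSquare.zero]
    have : ((Finset.range p).filter (fun k : ℕ =>
      k ≠ 0 ∧ (∃ c ∈ Finset.range p, (c * c) % p = k) ∧
        ((k * (m / p) : ℕ) : ZMod m) = LP.emb p m (0 : ZMod p))) = ∅ := by
      rw [Finset.filter_eq_empty_iff]
      rintro k hk' ⟨h1, -, h3⟩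
      rw [hk k hk', ZMod.val_zero] at h3
      exact h1 h3
    rw [this]
    simp
  · have h0 : LP.emb p m a ≠ 0 := fun h => ha (hinj (h.trans LP.emb_zero.symm))
    rw [if_neg h0, zero_add]
    by_cases hs : IsSquare a
    · rw [if_pos hs, Finset.card_eq_one]
      refine ⟨a.val, ?_⟩
      ext k
      rw [Finset.mem_filter, Finset.mem_singleton]
      constructor
      · rintro ⟨h1, -, -, h3⟩
        exact (hk k h1).1 h3
      · rintro rfl
        have h1 : a.val ∈ Finset.range p := Finset.mem_range.2 (ZMod.val_lt a)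
        refine ⟨h1, fun h => ha ((ZMod.val_eq_zero a).1 h), ?_, (hk _ h1).2 rfl⟩
        obtain ⟨c, hc⟩ := hs
        refine ⟨c.val, Finset.mem_range.2 (ZMod.val_lt c), ?_⟩
        rw [hc, ZMod.val_mul]
    · rw [if_neg hs, Finset.card_eq_zero, Finset.filter_eq_empty_iff]
      rintro k h1 ⟨-, ⟨c, -, hc⟩, h3⟩
      rw [hk k h1] at h3
      apply hs
      refine ⟨(c : ZMod p), ?_⟩
      have : ((c * c : ℕ) : ZMod p) = ((a.val : ℕ) : ZMod p) := by
        rw [ZMod.natCast_eq_natCast_iff, Nat.ModEq, hc, h3,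
          Nat.mod_eq_of_lt (ZMod.val_lt a)]
      rw [ZMod.natCast_zmod_val] at this
      rw [← this]
      push_cast
      rfl

/-- twice the indicator of the squares -/
theorem P0_ind (p : ℕ) [Fact p.Prime] (a : ZMod p) :
    2 * (if IsSquare a then (1 : ℤ) else 0) =
      1 + (if a = 0 then 1 else 0) + quadraticChar (ZMod p) a := by
  by_cases ha : a = 0
  · subst ha
    rw [if_pos IsSquare.zero, if_pos rfl, quadraticChar_zero]
    norm_num
  · rw [if_neg ha]
    by_cases hs : IsSquare a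
    · rw [if_pos hs, (quadraticChar_one_iff_isSquare ha).2 hs]
      norm_num
    · rw [if_neg hs, quadraticChar_neg_one_iff_not_isSquare.2 hs]
      norm_num

theorem P0_qneg (p : ℕ) [Fact p.Prime] (h3 : p % 4 = 3) (a : ZMod p) :
    quadraticChar (ZMod p) (-a) = - quadraticChar (ZMod p) a := by
  have hF : ringChar (ZMod p) ≠ 2 := by
    rw [ZMod.ringChar_zmod_n]
    rintro rfl
    omega
  have h1 : quadraticChar (ZMod p) (-1) = -1 := by
    rw [quadraticChar_neg_one hF, ZMod.card, ZMod.χ₄_nat_three_mod_four h3]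
  rw [← neg_one_mul a, map_mul, h1, neg_one_mul]

theorem P0_sq_sub (p : ℕ) [Fact p.Prime] (h3 : p % 4 = 3) (a : ZMod p) (ha : a ≠ 0) :
    (if IsSquare (-a) then (1 : ℤ) else 0) - (if IsSquare a then (1 : ℤ) else 0) =
      - quadraticChar (ZMod p) a := by
  have h1 := P0_ind p a
  have h2 := P0_ind p (-a)
  rw [P0_qneg p h3, if_neg (neg_ne_zero.2 ha)] at h2
  rw [if_neg ha] at h1
  linarith

/-- the convolution square -/
theorem P0_conv_sq (p : ℕ) [Fact p.Prime] (h3 : p % 4 = 3) (a : ZMod p) :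
    (∑ b : ZMod p, (if IsSquare b then (1 : ℤ) else 0) * (if IsSquare (-a - b) then 1 else 0)) -
      (∑ b : ZMod p, (if IsSquare b then (1 : ℤ) else 0) * (if IsSquare (a - b) then 1 else 0)) =
      - quadraticChar (ZMod p) a := by
  have hF : ringChar (ZMod p) ≠ 2 := by
    rw [ZMod.ringChar_zmod_n]
    rintro rfl
    omega
  set χ := quadraticChar (ZMod p) with hχ
  have key : ∀ a : ZMod p, 4 * (∑ b : ZMod p, (if IsSquare b then (1 : ℤ) else 0) *
      (if IsSquare (a - b) then 1 else 0)) =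
      (∑ b : ZMod p, (1 + (if b = 0 then (1 : ℤ) else 0)) * (1 + (if a - b = 0 then 1 else 0))) +
      (∑ b : ZMod p, χ b * χ (a - b)) + 2 * χ a := by
    intro a
    have h1 : ∀ b : ZMod p, 4 * ((if IsSquare b then (1 : ℤ) else 0) *
        (if IsSquare (a - b) then 1 else 0)) =
        (1 + (if b = 0 then (1 : ℤ) else 0)) * (1 + (if a - b = 0 then 1 else 0)) +
        χ b * χ (a - b) + (χ (a - b) + (if b = 0 then χ (a - b) else 0)) +
          (χ b + (if a - b = 0 then χ b else 0)) := by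
      intro b
      have e1 := P0_ind p b
      have e2 := P0_ind p (a - b)
      rw [← hχ] at e1 e2
      have e3 : 4 * ((if IsSquare b then (1 : ℤ) else 0) *
        (if IsSquare (a - b) then 1 else 0)) = (2 * (if IsSquare b then (1 : ℤ) else 0)) *
        (2 * (if IsSquare (a - b) then (1 : ℤ) else 0)) := by ring
      rw [e3, e1, e2]
      split_ifs <;> ring
    rw [Finset.mul_sum]
    simp only [h1]
    rw [Finset.sum_add_distrib, Finset.sum_add_distrib, Finset.sum_add_distrib,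
      Finset.sum_add_distrib, Finset.sum_add_distrib]
    have s1 : ∑ b : ZMod p, χ (a - b) = 0 := by
      rw [Fintype.sum_equiv (Equiv.subLeft a) (fun b => χ (a - b)) (fun b => χ b)
        (fun b => rfl)]
      exact quadraticChar_sum_zero hF
    have s2 : ∑ b : ZMod p, χ b = 0 := quadraticChar_sum_zero hF
    have s3 : ∑ b : ZMod p, (if b = 0 then χ (a - b) else 0) = χ a := by
      rw [Finset.sum_ite_eq' Finset.univ (0 : ZMod p) (fun b => χ (a - b))]
      simp
    have s4 : ∑ b : ZMod p, (if a - b = 0 then χ b else 0) = χ a := by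
      have : ∀ b : ZMod p, (if a - b = 0 then χ b else 0) = (if b = a then χ b else 0) := by
        intro b
        by_cases hb : b = a
        · subst hb; simp
        · rw [if_neg hb, if_neg (fun h => hb (sub_eq_zero.1 h).symm)]
      simp only [this]
      rw [Finset.sum_ite_eq' Finset.univ a (fun b => χ b)]
      simp
    rw [s1, s2, s3, s4]
    ring
  have k1 := key a
  have k2 := key (-a)
  have u1 : (∑ b : ZMod p, (1 + (if b = 0 then (1 : ℤ) else 0)) *
      (1 + (if -a - b = 0 then 1 else 0))) =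
      (∑ b : ZMod p, (1 + (if b = 0 then (1 : ℤ) else 0)) * (1 + (if a - b = 0 then 1 else 0))) := by
    refine Fintype.sum_equiv (Equiv.neg (ZMod p)) _ _ fun b => ?_
    rw [Equiv.neg_apply]
    have e1 : (-b = 0) = (b = 0) := by rw [neg_eq_zero]
    have e2 : (-a - b = 0) = (a - -b = 0) := by
      rw [show -a - b = -(a - -b) by ring, neg_eq_zero]
    simp only [e1, e2]
  have u2 : (∑ b : ZMod p, χ b * χ (-a - b)) = ∑ b : ZMod p, χ b * χ (a - b) := by
    refine Fintype.sum_equiv (Equiv.neg (ZMod p)) _ _ fun b => ?_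
    rw [Equiv.neg_apply, show -a - b = -(a - -b) by ring, hχ, P0_qneg p h3, P0_qneg p h3]
    ring
  have u3 : χ (-a) = - χ a := by rw [hχ, P0_qneg p h3]
  rw [u1, u2, u3] at k2
  linarith

/-- convolution square of the exponents at one prime -/
theorem P0_conv_vp (m p : ℕ) [NeZero m] [Fact p.Prime] (hpm : p ∣ m) (a : ZMod p) :
    ((conv (vp m p) (vp m p) (LP.emb p m a) : ℕ) : ℤ) =
      ∑ b : ZMod p, (if IsSquare b then (1 : ℤ) else 0) * (if IsSquare (a - b) then 1 else 0) := by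
  have hinj := emb_injective hpm
  have h1 : conv (vp m p) (vp m p) (LP.emb p m a) =
      ∑ b : ZMod p, vp m p (LP.emb p m b) * vp m p (LP.emb p m (a - b)) := by
    unfold conv
    symm
    apply Finset.sum_of_injOn (LP.emb p m) (hinj.injOn) (by intro x _; simp)
    · intro u _ hu
      have h2 : vp m p u = 0 := by
        by_contra h
        have h3 := P0_vp_supp m p hpm u h
        apply hu
        have h4 : u ∈ Set.range (LP.emb p m) := by
          by_cases h0 : u = 0
          · exact ⟨0, by rw [h0, LP.emb_zero]⟩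
          · have h5 : addOrderOf u = p := by
              have h6 : addOrderOf u ∣ p := addOrderOf_dvd_iff_nsmul_eq_zero.2 h3
              rcases (Nat.dvd_prime (Fact.out : p.Prime)).1 h6 with h7 | h7
              · exact absurd (AddMonoid.addOrderOf_eq_one_iff.1 h7) h0
              · exact h7
            obtain ⟨z, hz⟩ := exists_emb u h5
            exact ⟨_, hz⟩
        obtain ⟨b, hb⟩ := h4
        exact ⟨b, by simp, hb⟩
      rw [h2, zero_mul]
    · intro b _
      have h3 : LP.emb p m (a - b) = LP.emb p m a - LP.emb p m b := by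
        rw [sub_eq_add_neg, emb_add hpm, emb_neg hpm, sub_eq_add_neg]
      rw [h3]
  rw [h1]
  push_cast
  refine Finset.sum_congr rfl fun b _ => ?_
  rw [P0_vp_emb m p hpm, P0_vp_emb m p hpm]
  push_cast
  rfl

theorem P0_exists_emb (m p : ℕ) [NeZero m] [Fact p.Prime] (y : ZMod m)
    (hy : p • y = 0) (h0 : y ≠ 0) : ∃ a : ZMod p, a ≠ 0 ∧ LP.emb p m a = y := by
  have h5 : addOrderOf y = p := by
    have h6 : addOrderOf y ∣ p := addOrderOf_dvd_iff_nsmul_eq_zero.2 hy
    rcases (Nat.dvd_prime (Fact.out : p.Prime)).1 h6 with h7 | h7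
    · exact absurd (AddMonoid.addOrderOf_eq_one_iff.1 h7) h0
    · exact h7
  obtain ⟨z, hz⟩ := exists_emb y h5
  exact ⟨_, z.ne_zero, hz⟩

theorem P0_qpm (p : ℕ) [Fact p.Prime] (a : ZMod p) (ha : a ≠ 0) :
    - quadraticChar (ZMod p) a = 1 ∨ - quadraticChar (ZMod p) a = -1 := by
  rcases quadraticChar_dichotomy ha with h | h
  · right; rw [h]
  · left; rw [h]; norm_num

/-- the difference at one prime -/
theorem P0_vp_neg (m p : ℕ) [NeZero m] (hp : p.Prime) (hpm : p ∣ m) (h3 : p % 4 = 3)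
    (y : ZMod m) (hy : p • y = 0) (h0 : y ≠ 0) :
    ((vp m p (-y) : ℕ) : ℤ) - (vp m p y : ℕ) = 1 ∨
      ((vp m p (-y) : ℕ) : ℤ) - (vp m p y : ℕ) = -1 := by
  haveI : Fact p.Prime := ⟨hp⟩
  obtain ⟨a, ha, rfl⟩ := P0_exists_emb m p y hy h0
  rw [← emb_neg hpm, P0_vp_emb m p hpm, P0_vp_emb m p hpm]
  have h := P0_sq_sub p h3 a ha
  push_cast
  rw [h]
  exact P0_qpm p a ha

theorem P0_vp2_neg (m p : ℕ) [NeZero m] (hp : p.Prime) (hpm : p ∣ m) (h3 : p % 4 = 3)
    (y : ZMod m) (hy : p • y = 0) (h0 : y ≠ 0) :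
    ((conv (vp m p) (vp m p) (-y) : ℕ) : ℤ) - (conv (vp m p) (vp m p) y : ℕ) = 1 ∨
      ((conv (vp m p) (vp m p) (-y) : ℕ) : ℤ) - (conv (vp m p) (vp m p) y : ℕ) = -1 := by
  haveI : Fact p.Prime := ⟨hp⟩
  obtain ⟨a, ha, rfl⟩ := P0_exists_emb m p y hy h0
  rw [← emb_neg hpm, P0_conv_vp m p hpm, P0_conv_vp m p hpm, P0_conv_sq p h3 a]
  exact P0_qpm p a ha

theorem P0_kp_neg (m : ℕ) [NeZero m] (h4 : 4 ∣ m) (y : ZMod m) (hy : (4 : ℕ) • y = 0)
    (h0 : (2 : ℕ) • y ≠ 0) :
    ((kp m (-y) : ℕ) : ℤ) - (kp m y : ℕ) = 1 ∨ ((kp m (-y) : ℕ) : ℤ) - (kp m y : ℕ) = -1 := by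
  have h5 : addOrderOf y = 4 := by
    have h6 : addOrderOf y ∣ 4 := addOrderOf_dvd_iff_nsmul_eq_zero.2 hy
    have h7 : ¬ addOrderOf y ∣ 2 := fun h => h0 (addOrderOf_dvd_iff_nsmul_eq_zero.1 h)
    have h8 : addOrderOf y ≤ 4 := Nat.le_of_dvd (by norm_num) h6
    interval_cases h : addOrderOf y
    · simp at h6
    · exact absurd (one_dvd 2) h7
    · exact absurd dvd_rfl h7
    · norm_num at h6
    · rfl
  obtain ⟨z, hz⟩ := exists_emb y h5
  have hinj := emb_injective h4
  have hz' : (z : ZMod 4) = 1 ∨ (z : ZMod 4) = -1 := by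
    have : ∀ u : (ZMod 4)ˣ, (u : ZMod 4) = 1 ∨ (u : ZMod 4) = -1 := by decide
    exact this z
  have hne : (-1 : ZMod 4) ≠ 1 := by decide
  unfold kp
  rcases hz' with h | h
  · rw [h] at hz
    right
    have a1 : -y ≠ LP.emb 4 m 1 := by
      rw [← hz, ← emb_neg h4]
      intro h
      exact hne (hinj h)
    rw [if_neg a1, if_pos hz.symm]
    norm_num
  · rw [h] at hz
    left
    have a1 : -y = LP.emb 4 m 1 := by
      rw [← hz, ← emb_neg h4, neg_neg]
    have a2 : y ≠ LP.emb 4 m 1 := by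
      rw [← hz]
      intro h
      exact hne (hinj h)
    rw [if_pos a1, if_neg a2]
    norm_num

/-! ### idempotents -/

theorem P0_idem (D : ℕ) [NeZero D] (q : ℕ) (hq : q.Prime) :
    ∃ e : ℕ, e ≡ 1 [MOD ordProj[q] D] ∧ ordCompl[q] D ∣ e := by
  have hco : Nat.Coprime (ordProj[q] D) (ordCompl[q] D) :=
    Nat.Coprime.pow_left _ (Nat.coprime_ordCompl hq (NeZero.ne D))
  obtain ⟨e, h1, h2⟩ := Nat.chineseRemainder hco 1 0
  exact ⟨e, h1, (Nat.modEq_zero_iff_dvd).1 h2⟩

theorem P0_idem_sum (D : ℕ) [NeZero D] (e : ℕ → ℕ)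
    (he : ∀ q ∈ D.primeFactors, e q ≡ 1 [MOD ordProj[q] D] ∧ ordCompl[q] D ∣ e q) :
    (D : ℤ) ∣ (∑ q ∈ D.primeFactors, (e q : ℤ)) - 1 := by
  have hD : (D : ℤ) = ∏ q ∈ D.primeFactors, ((q ^ D.factorization q : ℕ) : ℤ) := by
    have h := Nat.prod_factorization_pow_eq_self (NeZero.ne D)
    conv_lhs => rw [← h]
    rw [Finsupp.prod, Nat.support_factorization]
    push_cast
    rfl
  rw [hD]
  apply Finset.prod_dvd_of_coprime
  · intro p hp q hq hpq
    have hp' := Nat.prime_of_mem_primeFactors hp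
    have hq' := Nat.prime_of_mem_primeFactors hq
    exact Nat.isCoprime_iff_coprime.2 (Nat.coprime_pow_primes _ _ hp' hq' hpq)
  · intro r hr
    have hr' := Nat.prime_of_mem_primeFactors hr
    rw [← Finset.add_sum_erase _ _ hr]
    have e1 : ((ordProj[r] D : ℕ) : ℤ) ∣ (e r : ℤ) - 1 := by
      have := (Nat.modEq_iff_dvd.1 (he r hr).1.symm)
      simpa using this
    have e2 : ((ordProj[r] D : ℕ) : ℤ) ∣ ∑ q ∈ D.primeFactors.erase r, (e q : ℤ) := by
      apply Finset.dvd_sum
      intro q hq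
      have hq1 := Finset.mem_erase.1 hq
      have hq' := Nat.prime_of_mem_primeFactors hq1.2
      have h3 : ordProj[r] D ∣ ordCompl[q] D := by
        have h4 : Nat.Coprime (ordProj[r] D) (ordProj[q] D) :=
          Nat.coprime_pow_primes _ _ hr' hq' (Ne.symm hq1.1)
        have h5 : ordProj[r] D ∣ ordProj[q] D * ordCompl[q] D := by
          rw [Nat.ordProj_mul_ordCompl_eq_self]
          exact Nat.ordProj_dvd D r
        exact h4.dvd_of_dvd_mul_left h5
      exact Int.natCast_dvd_natCast.2 (h3.trans (he q hq1.2).2)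
    have e3 : (e r : ℤ) + (∑ q ∈ D.primeFactors.erase r, (e q : ℤ)) - 1 =
        ((e r : ℤ) - 1) + ∑ q ∈ D.primeFactors.erase r, (e q : ℤ) := by ring
    rw [e3]
    exact dvd_add e1 e2

/-! ### the action of units -/

theorem P0_gam_mod (D q : ℕ) [NeZero D] (hq : q ∣ D) (γ : (ZMod D)ˣ) (h : γ ∈ Gam D q) :
    (γ : ZMod D).val ≡ 1 [MOD D / q] := by
  unfold Gam at h
  rw [dif_pos hq, MonoidHom.mem_ker] at h
  have h1 := congrArg Units.val h
  rw [ZMod.unitsMap_def] at h1
  have h2 : ZMod.castHom (Nat.div_dvd_of_dvd hq) (ZMod (D / q)) (γ : ZMod D) = 1 := by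
    simpa using h1
  have h3 : ((((γ : ZMod D).val : ℕ)) : ZMod (D / q)) = ((1 : ℕ) : ZMod (D / q)) := by
    have h4 : (γ : ZMod D) = (((γ : ZMod D).val : ℕ) : ZMod D) := (ZMod.natCast_zmod_val _).symm
    rw [h4, map_natCast] at h2
    rw [h2, Nat.cast_one]
  exact (ZMod.natCast_eq_natCast_iff _ _ _).1 h3

theorem P0_emb_mul (m D : ℕ) [NeZero m] [NeZero D] (hDm : D ∣ m) (γ z : (ZMod D)ˣ) :
    LP.emb D m ((γ * z : (ZMod D)ˣ) : ZMod D) = (γ : ZMod D).val • LP.emb D m (z : ZMod D) := by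
  rw [nsmul_eq_mul, mul_emb hDm]
  congr 1
  rw [Units.val_mul, map_natCast, ZMod.natCast_zmod_val]

theorem P0_smul_congr (m D : ℕ) [NeZero m] [NeZero D] (hDm : D ∣ m) (z : (ZMod D)ˣ) (a b : ℕ)
    (h : a ≡ b [MOD D]) : a • LP.emb D m (z : ZMod D) = b • LP.emb D m (z : ZMod D) := by
  apply nsmul_eq_nsmul_iff_modEq.2
  rw [addOrderOf_emb hDm]
  exact h

/-- the component is not changed by the other groups -/
theorem P0_inv (m D : ℕ) [NeZero m] [NeZero D] (hDm : D ∣ m) (q r e : ℕ)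
    (hq : q ∈ D.primeFactors) (hr : r ∈ D.primeFactors) (hqr : r ≠ q)
    (he : e ≡ 1 [MOD ordProj[q] D] ∧ ordCompl[q] D ∣ e) (γ : (ZMod D)ˣ) (hγ : γ ∈ Gam D r)
    (z : (ZMod D)ˣ) : e • LP.emb D m ((γ * z : (ZMod D)ˣ) : ZMod D) =
      e • LP.emb D m (z : ZMod D) := by
  rw [P0_emb_mul m D hDm, ← mul_nsmul']
  apply P0_smul_congr m D hDm
  have hq' := Nat.prime_of_mem_primeFactors hq
  have hr' := Nat.prime_of_mem_primeFactors hr
  have hrD := Nat.dvd_of_mem_primeFactors hr
  have h1 := P0_gam_mod D r hrD γ hγ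
  have hco : Nat.Coprime (ordProj[q] D) (ordCompl[q] D) :=
    Nat.Coprime.pow_left _ (Nat.coprime_ordCompl hq' (NeZero.ne D))
  have h2 : ordProj[q] D ∣ D / r := by
    have h4 : Nat.Coprime (ordProj[q] D) r :=
      Nat.Coprime.pow_left _ ((Nat.coprime_primes hq' hr').2 (Ne.symm hqr))
    have h5 : ordProj[q] D ∣ r * (D / r) := by
      rw [Nat.mul_div_cancel' hrD]
      exact Nat.ordProj_dvd D q
    exact h4.dvd_of_dvd_mul_left h5
  have h3 : e * (γ : ZMod D).val ≡ e [MOD ordProj[q] D] := by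
    have := (h1.of_dvd h2).mul_left e
    rwa [mul_one] at this
  have h4 : e * (γ : ZMod D).val ≡ e [MOD ordCompl[q] D] := by
    have e1 : e * (γ : ZMod D).val ≡ 0 [MOD ordCompl[q] D] :=
      (Nat.modEq_zero_iff_dvd).2 (he.2.mul_right _)
    exact e1.trans ((Nat.modEq_zero_iff_dvd).2 he.2).symm
  have h5 := (Nat.modEq_and_modEq_iff_modEq_mul hco).1 ⟨h3, h4⟩
  rwa [Nat.ordProj_mul_ordCompl_eq_self] at h5

/-- the component changes the sign -/
theorem P0_neg (m D : ℕ) [NeZero m] [NeZero D] (hDm : D ∣ m) (q e : ℕ)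
    (hq : q ∈ D.primeFactors)
    (he : e ≡ 1 [MOD ordProj[q] D] ∧ ordCompl[q] D ∣ e) (ν : (ZMod D)ˣ)
    (hν : ordProj[q] D ∣ (ν : ZMod D).val + 1)
    (z : (ZMod D)ˣ) : e • LP.emb D m ((ν * z : (ZMod D)ˣ) : ZMod D) =
      - (e • LP.emb D m (z : ZMod D)) := by
  rw [P0_emb_mul m D hDm, ← mul_nsmul']
  apply eq_neg_of_add_eq_zero_left
  rw [← add_nsmul]
  have hq' := Nat.prime_of_mem_primeFactors hq
  have hco : Nat.Coprime (ordProj[q] D) (ordCompl[q] D) :=
    Nat.Coprime.pow_left _ (Nat.coprime_ordCompl hq' (NeZero.ne D))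
  rw [nsmul_emb_eq_zero hDm]
  have h1 : e * (ν : ZMod D).val + e = e * ((ν : ZMod D).val + 1) := by ring
  rw [h1]
  have h2 : ordProj[q] D * ordCompl[q] D ∣ e * ((ν : ZMod D).val + 1) := by
    rw [mul_comm]
    exact mul_dvd_mul he.2 hν
  rwa [Nat.ordProj_mul_ordCompl_eq_self] at h2

theorem P0_tors (m D : ℕ) [NeZero m] [NeZero D] (hDm : D ∣ m) (q e : ℕ)
    (he : e ≡ 1 [MOD ordProj[q] D] ∧ ordCompl[q] D ∣ e)
    (z : (ZMod D)ˣ) : (ordProj[q] D) • (e • LP.emb D m (z : ZMod D)) = 0 := by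
  rw [← mul_nsmul', nsmul_emb_eq_zero hDm]
  have h2 : ordProj[q] D * ordCompl[q] D ∣ ordProj[q] D * e := mul_dvd_mul dvd_rfl he.2
  rwa [Nat.ordProj_mul_ordCompl_eq_self] at h2

theorem P0_tors_ne (m D : ℕ) [NeZero m] [NeZero D] (hDm : D ∣ m) (q e : ℕ)
    (hq : q ∈ D.primeFactors)
    (he : e ≡ 1 [MOD ordProj[q] D] ∧ ordCompl[q] D ∣ e)
    (z : (ZMod D)ˣ) (k : ℕ) (hk : ¬ ordProj[q] D ∣ k) :
    k • (e • LP.emb D m (z : ZMod D)) ≠ 0 := by
  rw [← mul_nsmul', Ne, nsmul_emb_eq_zero hDm]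
  intro h
  apply hk
  have hq' := Nat.prime_of_mem_primeFactors hq
  have h1 : ordProj[q] D ∣ k * e := (Nat.ordProj_dvd D q).trans h
  have h2 : Nat.Coprime (ordProj[q] D) e := by
    have h3 := he.1.gcd_eq
    rw [Nat.gcd_one_left] at h3
    rw [Nat.Coprime, Nat.gcd_comm]
    exact h3
  exact h2.dvd_of_dvd_mul_right h1

theorem P0_proj_odd (D q : ℕ) [NeZero D] (hD : Lform D) (hq : q ∈ D.primeFactors)
    (h2 : q ≠ 2) : ordProj[q] D = q := by
  have hq' := Nat.prime_of_mem_primeFactors hq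
  have hqd := Nat.dvd_of_mem_primeFactors hq
  have h1 : D.factorization q = 1 := by
    have h3 : 1 ≤ D.factorization q := (hq'.dvd_iff_one_le_factorization (NeZero.ne D)).1 hqd
    have h4 : ¬ 2 ≤ D.factorization q := by
      intro h
      exact hD.2.1 q hq' (hq'.odd_of_ne_two h2)
        ((hq'.pow_dvd_iff_le_factorization (NeZero.ne D)).2 h)
    omega
  rw [h1, pow_one]

theorem P0_proj_two (D : ℕ) [NeZero D] (hD : Lform D) (h4 : 4 ∣ D) :
    ordProj[2] D = 4 := by
  have h1 : D.factorization 2 = 2 := by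
    have h3 : 2 ≤ D.factorization 2 :=
      (Nat.prime_two.pow_dvd_iff_le_factorization (NeZero.ne D)).1 (by simpa using h4)
    have h4 : ¬ 3 ≤ D.factorization 2 := by
      intro h
      have := (Nat.prime_two.pow_dvd_iff_le_factorization (NeZero.ne D)).2 h
      exact hD.2.2 (by simpa using this)
    omega
  rw [h1]
  norm_num

theorem P0_four (D : ℕ) [NeZero D] (hD : Lform D) (h2 : 2 ∈ D.primeFactors) : 4 ∣ D := by
  have h := Nat.dvd_of_mem_primeFactors h2
  have := hD.1
  omega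

/-- involutions of `Gam D q` -/
theorem P0_invol (D q : ℕ) [NeZero D] (hD : Lform D) (hq : q ∈ D.primeFactors) (ν : (ZMod D)ˣ)
    (hν : ν ∈ Gam D q) (h2 : ν * ν = 1) (h1 : ν ≠ 1) : ordProj[q] D ∣ (ν : ZMod D).val + 1 := by
  have hq' := Nat.prime_of_mem_primeFactors hq
  have hqd := Nat.dvd_of_mem_primeFactors hq
  have hmod := P0_gam_mod D q hqd ν hν
  set g := (ν : ZMod D).val with hg
  have hgν : ((g : ℕ) : ZMod D) = (ν : ZMod D) := ZMod.natCast_zmod_val _
  have hsq : (D : ℤ) ∣ ((g : ℤ) - 1) * ((g : ℤ) + 1) := by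
    have e1 : (((((g : ℤ) - 1) * ((g : ℤ) + 1) : ℤ)) : ZMod D) = 0 := by
      push_cast
      rw [hgν]
      have e2 := congrArg Units.val h2
      rw [Units.val_mul, Units.val_one] at e2
      linear_combination e2
    exact (ZMod.intCast_zmod_eq_zero_iff_dvd _ _).1 e1
  have hne : ¬ (D : ℤ) ∣ (g : ℤ) - 1 := by
    intro h
    apply h1
    have e1 := (ZMod.intCast_zmod_eq_zero_iff_dvd _ _).2 h
    push_cast at e1
    rw [hgν] at e1
    apply Units.ext
    rw [Units.val_one]
    linear_combination e1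
  have hmod' : ((D / q : ℕ) : ℤ) ∣ (g : ℤ) - 1 := by
    have := Nat.modEq_iff_dvd.1 hmod.symm
    simpa using this
  by_cases hq2 : q = 2
  · subst hq2
    have h4 := P0_four D hD hq
    rw [P0_proj_two D hD h4]
    obtain ⟨k, hk⟩ := h4
    have hk2 : ¬ 2 ∣ k := by
      rintro ⟨j, hj⟩
      apply hD.2.2
      exact ⟨j, by rw [hk, hj]; ring⟩
    have hD2 : D / 2 = 2 * k := by omega
    rw [hD2] at hmod'
    obtain ⟨j, hj⟩ := hmod'
    have hjodd : ¬ (2 : ℤ) ∣ j := by
      rintro ⟨i, hi⟩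
      apply hne
      refine ⟨i, ?_⟩
      rw [hj, hi, hk]
      push_cast
      ring
    have hkodd : ¬ (2 : ℤ) ∣ (k : ℤ) := by
      intro h
      exact hk2 (by exact_mod_cast h)
    have h5 : (g : ℤ) + 1 = 2 * ((k : ℤ) * j + 1) := by
      push_cast at hj
      linarith
    have h6 : (2 : ℤ) ∣ (k : ℤ) * j + 1 := by
      have h7 : Odd (k : ℤ) := Int.not_even_iff_odd.1 (fun h => hkodd (even_iff_two_dvd.1 h))
      have h8 : Odd j := Int.not_even_iff_odd.1 (fun h => hjodd (even_iff_two_dvd.1 h))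
      exact even_iff_two_dvd.1 ((h7.mul h8).add_odd odd_one)
    obtain ⟨i, hi⟩ := h6
    have h9 : (4 : ℤ) ∣ (g : ℤ) + 1 := ⟨i, by rw [h5, hi]; ring⟩
    exact_mod_cast h9
  · rw [P0_proj_odd D q hD hq hq2]
    have hqi : Prime (q : ℤ) := Nat.prime_iff_prime_int.1 hq'
    have h3 : (q : ℤ) ∣ ((g : ℤ) - 1) * ((g : ℤ) + 1) :=
      (Int.natCast_dvd_natCast.2 hqd).trans hsq
    rcases hqi.dvd_or_dvd h3 with h4 | h4
    · exfalso
      apply hne
      have hco : Nat.Coprime q (D / q) := by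
        rw [Nat.coprime_comm, Nat.coprime_comm]
        refine (Nat.Prime.coprime_iff_not_dvd hq').2 fun h => ?_
        apply hD.2.1 q hq' (hq'.odd_of_ne_two hq2)
        obtain ⟨k, hk⟩ := h
        refine ⟨k, ?_⟩
        have := Nat.mul_div_cancel' hqd
        rw [hk] at this
        rw [← this]
        ring
      have h5 : ((q : ℤ) * ((D / q : ℕ) : ℤ)) ∣ (g : ℤ) - 1 :=
        IsCoprime.mul_dvd (Nat.isCoprime_iff_coprime.2 hco) h4 hmod'
      have h6 : ((q : ℤ) * ((D / q : ℕ) : ℤ)) = (D : ℤ) := by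
        exact_mod_cast Nat.mul_div_cancel' hqd
      rwa [h6] at h5
    · exact_mod_cast h4

/-! ### assembly -/

theorem P0_split {A : Type*} [CommMonoid A] (D : ℕ) [NeZero D] (hD : Lform D) (R : List ℕ)
    (hRn : R.Nodup) (hR : ∀ p, p ∈ R ↔ p ∈ D.primeFactors ∧ p ≠ 2) (f : ℕ → A) :
    ∏ q ∈ D.primeFactors, f q = (R.map f).prod * (if 4 ∣ D then f 2 else 1) := by
  rw [← List.prod_toFinset f hRn]
  by_cases h4 : 4 ∣ D
  · rw [if_pos h4]
    have h2 : 2 ∈ D.primeFactors :=
      Nat.mem_primeFactors.2 ⟨Nat.prime_two, (by norm_num : 2 ∣ 4).trans h4, NeZero.ne D⟩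
    have h1 : D.primeFactors = insert 2 R.toFinset := by
      ext p
      rw [Finset.mem_insert, List.mem_toFinset, hR]
      by_cases hp : p = 2
      · subst hp; simp only [h2, true_or]
      · simp [hp]
    have h3 : 2 ∉ R.toFinset := by
      rw [List.mem_toFinset, hR]
      exact fun h => h.2 rfl
    rw [h1, Finset.prod_insert h3, mul_comm]
  · rw [if_neg h4, mul_one]
    congr 1
    ext p
    rw [List.mem_toFinset, hR]
    constructor
    · intro hp
      exact ⟨hp, fun h => h4 (P0_four D hD (h ▸ hp))⟩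
    · exact fun h => h.1

theorem P0_split_sum {A : Type*} [AddCommMonoid A] (D : ℕ) [NeZero D] (hD : Lform D)
    (R : List ℕ) (hRn : R.Nodup) (hR : ∀ p, p ∈ R ↔ p ∈ D.primeFactors ∧ p ≠ 2) (f : ℕ → A) :
    ∑ q ∈ D.primeFactors, f q = (R.map f).sum + (if 4 ∣ D then f 2 else 0) := by
  have h := P0_split (A := Multiplicative A) D hD R hRn hR (fun q => Multiplicative.ofAdd (f q))
  have h1 := congrArg Multiplicative.toAdd h
  rw [toAdd_mul, toAdd_prod] at h1
  simp only [toAdd_ofAdd] at h1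
  rw [h1]
  have h2 : ∀ l : List ℕ, Multiplicative.toAdd
        ((l.map fun q => Multiplicative.ofAdd (f q)).prod) = (l.map f).sum := by
    intro l
    induction l with
    | nil => rfl
    | cons a l ih => rw [List.map_cons, List.prod_cons, toAdd_mul, ih, List.map_cons,
        List.sum_cons, toAdd_ofAdd]
  rw [h2 R]
  split_ifs <;> rfl

/-- decomposition of a point in its components -/
theorem P0_decomp (m D : ℕ) [NeZero m] [NeZero D] (hDm : D ∣ m) (hD : Lform D) (R : List ℕ)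
    (hRn : R.Nodup) (hR : ∀ p, p ∈ R ↔ p ∈ D.primeFactors ∧ p ≠ 2) (e : ℕ → ℕ)
    (he : ∀ q ∈ D.primeFactors, e q ≡ 1 [MOD ordProj[q] D] ∧ ordCompl[q] D ∣ e q)
    (z : (ZMod D)ˣ) :
    (R.map fun q => e q • LP.emb D m (z : ZMod D)).sum +
      (if 4 ∣ D then e 2 • LP.emb D m (z : ZMod D) else 0) = LP.emb D m (z : ZMod D) := by
  rw [← P0_split_sum D hD R hRn hR, ← Finset.sum_smul]
  have h1 := P0_idem_sum D e he
  have h2 : (∑ q ∈ D.primeFactors, e q) ≡ 1 [MOD D] := by
    apply Nat.ModEq.symm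
    apply Nat.modEq_iff_dvd.2
    push_cast
    exact h1
  rw [P0_smul_congr m D hDm z _ 1 h2, one_nsmul]

theorem pat_prod (m D : ℕ) [NeZero m] [NeZero D] (hDm : D ∣ m) (hD : Lform D) (h3 : Three D)
    (R : List ℕ) (hRn : R.Nodup) (hR : ∀ p, p ∈ R ↔ p ∈ D.primeFactors ∧ p ≠ 2) :
    ∃ φ : ℕ → (ZMod D)ˣ → ℤ,
      (∀ z : (ZMod D)ˣ, ((pat m (decide (4 ∣ D)) R (LP.emb D m (z : ZMod D)) : ℕ) : ℤ) =
        ∏ p ∈ D.primeFactors, φ p z) ∧
      (∀ p ∈ D.primeFactors, ∀ q ∈ D.primeFactors, q ≠ p → ∀ γ ∈ Gam D q, ∀ z,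
        φ p (γ * z) = φ p z) ∧
      (∀ p ∈ D.primeFactors, ∀ ν ∈ Gam D p, ν * ν = 1 → ν ≠ 1 → ∀ z,
        φ p (ν * z) - φ p z = 1 ∨ φ p (ν * z) - φ p z = -1) := by
  have hex : ∀ q : ℕ, ∃ e : ℕ, q ∈ D.primeFactors →
      e ≡ 1 [MOD ordProj[q] D] ∧ ordCompl[q] D ∣ e := by
    intro q
    by_cases hq : q ∈ D.primeFactors
    · obtain ⟨e, he⟩ := P0_idem D q (Nat.prime_of_mem_primeFactors hq)
      exact ⟨e, fun _ => he⟩
    · exact ⟨0, fun h => absurd h hq⟩
  choose e he using hex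
  have hRm : ∀ p ∈ R, p.Prime ∧ Odd p ∧ p ∣ m := by
    intro p hp
    have h1 := (hR p).1 hp
    have h2 := Nat.prime_of_mem_primeFactors h1.1
    exact ⟨h2, h2.odd_of_ne_two h1.2, (Nat.dvd_of_mem_primeFactors h1.1).trans hDm⟩
  refine ⟨fun q z => if q = 2 then ((kp m (e 2 • LP.emb D m (z : ZMod D)) : ℕ) : ℤ) else
    ((vp m q (e q • LP.emb D m (z : ZMod D)) : ℕ) : ℤ), ?_, ?_, ?_⟩
  · intro z
    rw [P0_split D hD R hRn hR]
    have h1 := P0_decomp m D hDm hD R hRn hR e he z
    conv_lhs => rw [← h1]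
    rw [P0_pat m (decide (4 ∣ D)) (fun h => (of_decide_eq_true h).trans hDm) R hRn hRm
      (fun q => e q • LP.emb D m (z : ZMod D))
      (fun p hp => by
        have h2 := (hR p).1 hp
        have h3 := P0_tors m D hDm p (e p) (he p h2.1) z
        rwa [P0_proj_odd D p hD h2.1 h2.2] at h3)
      (if 4 ∣ D then e 2 • LP.emb D m (z : ZMod D) else 0)
      (fun h => by
        have h4 : 4 ∣ D := of_decide_eq_true h
        rw [if_pos h4]
        have h2 : 2 ∈ D.primeFactors :=
          Nat.mem_primeFactors.2 ⟨Nat.prime_two, (by norm_num : 2 ∣ 4).trans h4, NeZero.ne D⟩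
        have h3 := P0_tors m D hDm 2 (e 2) (he 2 h2) z
        rwa [P0_proj_two D hD h4] at h3)
      (fun h => if_neg (of_decide_eq_false h))]
    push_cast
    congr 1
    · rw [List.map_map]
      congr 1
      apply List.map_congr_left
      intro q hq
      have h2 := ((hR q).1 hq).2
      simp only [Function.comp_apply]
      rw [if_neg h2]
    · by_cases h4 : 4 ∣ D
      · simp [h4]
      · simp [h4]
  · intro p hp q hq hqp γ hγ z
    have h1 := P0_inv m D hDm p q (e p) hp hq hqp (he p hp) γ hγ z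
    by_cases hp2 : p = 2
    · subst hp2
      simp only [if_true]
      rw [h1]
    · simp only [if_neg hp2]
      rw [h1]
  · intro p hp ν hν h2 h1 z
    have h4 := P0_neg m D hDm p (e p) hp (he p hp) ν (P0_invol D p hD hp ν hν h2 h1) z
    by_cases hp2 : p = 2
    · subst hp2
      simp only [if_true]
      rw [h4]
      have h5 := P0_four D hD hp
      have h6 := P0_tors m D hDm 2 (e 2) (he 2 hp) z
      rw [P0_proj_two D hD h5] at h6
      have h7 := P0_tors_ne m D hDm 2 (e 2) hp (he 2 hp) z 2 (by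
        rw [P0_proj_two D hD h5]; norm_num)
      exact P0_kp_neg m (h5.trans hDm) _ h6 h7
    · simp only [if_neg hp2]
      rw [h4]
      have hpp := Nat.prime_of_mem_primeFactors hp
      have h6 := P0_tors m D hDm p (e p) (he p hp) z
      have h8 := P0_proj_odd D p hD hp hp2
      rw [h8] at h6
      have h7 := P0_tors_ne m D hDm p (e p) hp (he p hp) z 1 (by
        rw [h8]; exact hpp.one_lt.ne' ∘ Nat.dvd_one.1)
      rw [one_nsmul] at h7
      refine P0_vp_neg m p hpp ((Nat.dvd_of_mem_primeFactors hp).trans hDm) ?_ _ h6 h7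
      rcases h3 p hpp (Nat.dvd_of_mem_primeFactors hp) with h | h
      · exact absurd h hp2
      · exact h

end Pool.Agent.helper76.MC
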