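import Pool.Agent.helper81.MC.P4
import Pool.Agent.helper99.MC.PA
import Pool.Agent.helper71.MC.P2

/-! # Project MC: P3 (the top part of the patterns, odd case) -/

namespace Pool.Agent.helper76.MC

open Finset Pool.Agent.helper34.DH Pool.Agent.helper76.FV Pool.Agent.helper76.LP
open Pool.Agent.helper76.UR
open Matrix (SpecialLinearGroup)

section MD
variable {G ι : Type*} [CommGroup G]

theorem P3_mdf_sub (ν : ι → G) (L : List ι) (f g : G → ℤ) (z : G) :
    mdf ν L (fun x => f x - g x) z = mdf ν L f z - mdf ν L g z := by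
  induction L generalizing f g z with
  | nil => rfl
  | cons p L ih =>
    show mdf ν L (fun x => (f (ν p * x) - g (ν p * x)) - (f x - g x)) z =
      mdf ν L (fun x => f (ν p * x) - f x) z - mdf ν L (fun x => g (ν p * x) - g x) z
    rw [← ih]
    congr 1
    funext x
    ring

theorem P3_mdf_shift (ν : ι → G) (L : List ι) (f : G → ℤ) (c z : G) :
    mdf ν L (fun x => f (c * x)) z = mdf ν L f (c * z) := by
  induction L generalizing f z with
  | nil => rfl
  | cons p L ih =>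
    show mdf ν L (fun x => f (c * (ν p * x)) - f (c * x)) z =
      mdf ν L (fun x => f (ν p * x) - f x) (c * z)
    rw [← ih]
    congr 1
    funext x
    rw [mul_left_comm]

end MD

theorem P3_pm {ι : Type*} (L : List ι) (f : ι → ℤ) (h : ∀ p ∈ L, f p = 1 ∨ f p = -1) :
    (L.map f).prod = 1 ∨ (L.map f).prod = -1 := by
  induction L with
  | nil => left; simp
  | cons p L ih =>
    rw [List.map_cons, List.prod_cons]
    rcases h p (by simp) with h1 | h1 <;>
      rcases ih (fun q hq => h q (by simp [hq])) with h2 | h2 <;> rw [h1, h2] <;> norm_num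

theorem P3_neg {ι : Type*} (L : List ι) (f : ι → ℤ) :
    (L.map fun p => - f p).prod = (-1) ^ L.length * (L.map f).prod := by
  induction L with
  | nil => simp
  | cons p L ih =>
    rw [List.map_cons, List.prod_cons, ih, List.map_cons, List.prod_cons, List.length_cons,
      pow_succ]
    ring

theorem pat_mdf (m D : ℕ) [NeZero m] [NeZero D] (hDm : D ∣ m) (hD : Lform D) (h3 : Three D)
    (L : List ℕ) (hLn : L.Nodup) (hL : L.toFinset = D.primeFactors)
    (ν : ℕ → (ZMod D)ˣ) (hν : ∀ p ∈ L, ν p ∈ Gam D p ∧ ν p * ν p = 1 ∧ ν p ≠ 1)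
    (hprod : (L.map ν).prod = -1) (hk : Odd L.length) (R : List ℕ) (p₀ : ℕ) (hp₀ : p₀ ∈ R)
    (hRn : R.Nodup) (hR : ∀ p, p ∈ R ↔ p ∈ D.primeFactors ∧ p ≠ 2) :
    mdf ν L (fun z => anti (fun x => ((pat m (decide (4 ∣ D)) (p₀ :: R) x : ℕ) : ℤ))
      (LP.emb D m (z : ZMod D))) 1 = 2 ∨
    mdf ν L (fun z => anti (fun x => ((pat m (decide (4 ∣ D)) (p₀ :: R) x : ℕ) : ℤ))
      (LP.emb D m (z : ZMod D))) 1 = -2 := by
  obtain ⟨φ, h1, h2, h4⟩ := pat_prod2 m D hDm hD h3 R p₀ hp₀ hRn hR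
  have hmem : ∀ p, p ∈ L ↔ p ∈ D.primeFactors := fun p => by
    rw [← hL, List.mem_toFinset]
  have hinv : ∀ p ∈ L, ∀ r ∈ L, r ≠ p → ∀ z, φ p (ν r * z) = φ p z :=
    fun p hp r hr hrp z => h2 p ((hmem p).1 hp) r ((hmem r).1 hr) hrp (ν r) (hν r hr).1 z
  set P : (ZMod D)ˣ → ℤ := fun z => (L.map fun p => φ p z).prod with hPdef
  have hP : ∀ z : (ZMod D)ˣ,
      ((pat m (decide (4 ∣ D)) (p₀ :: R) (LP.emb D m (z : ZMod D)) : ℕ) : ℤ) = P z := by
    intro z
    rw [h1, ← hL, List.prod_toFinset _ hLn]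
  have hN : ∀ p ∈ L, ∀ z, φ p (-1 * z) = φ p (ν p * z) := by
    intro p hp z
    rw [← hprod]
    exact P2_inv_all L hLn ν (φ p) p hp (fun r hr hrp z => hinv p hp r hr hrp z) z
  have hf : (fun z : (ZMod D)ˣ => anti (fun x => ((pat m (decide (4 ∣ D)) (p₀ :: R) x : ℕ) : ℤ))
      (LP.emb D m (z : ZMod D))) = fun z => P z - P (-1 * z) := by
    funext z
    have e1 : -LP.emb D m (z : ZMod D) = LP.emb D m ((-1 * z : (ZMod D)ˣ) : ZMod D) := by
      rw [← emb_neg hDm]
      congr 1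
      simp
    show ((pat m (decide (4 ∣ D)) (p₀ :: R) (LP.emb D m (z : ZMod D)) : ℕ) : ℤ) -
      ((pat m (decide (4 ∣ D)) (p₀ :: R) (-LP.emb D m (z : ZMod D)) : ℕ) : ℤ) = _
    rw [e1, hP z, hP (-1 * z)]
  have hm : ∀ z, mdf ν L P z = (L.map fun p => φ p (ν p * z) - φ p z).prod := by
    intro z
    have := mdf_prod L [] (by simpa using hLn) ν φ (by simpa using hinv) z
    simpa using this
  rw [hf, P3_mdf_sub ν L P (fun z => P (-1 * z)) 1, P3_mdf_shift ν L P (-1) 1, hm 1, hm (-1 * 1)]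
  have h5 : (L.map fun p => φ p (ν p * (-1 * 1)) - φ p (-1 * 1)).prod =
      - (L.map fun p => φ p (ν p * 1) - φ p 1).prod := by
    have h6 : (L.map fun p => φ p (ν p * (-1 * 1)) - φ p (-1 * 1)) =
        L.map fun p => - (φ p (ν p * 1) - φ p 1) := by
      apply List.map_congr_left
      intro p hp
      rw [mul_left_comm (ν p), hN p hp, hN p hp, mul_one, (hν p hp).2.1]
      ring
    rw [h6, P3_neg, hk.neg_one_pow, neg_one_mul]
  rw [h5]
  have h7 := P3_pm L (fun p => φ p (ν p * 1) - φ p 1) (fun p hp =>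
    h4 p ((hmem p).1 hp) (ν p) (hν p hp).1 (hν p hp).2.1 (hν p hp).2.2 1)
  rcases h7 with h7 | h7
  · left; rw [h7]; norm_num
  · right; rw [h7]; norm_num

end Pool.Agent.helper76.MC
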