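import Pool.Agent.helper81.MC.P0

/-! # Project MC: P0 (product formula for the patterns with one prime twice) -/

namespace Pool.Agent.helper76.MC

open Finset Pool.Agent.helper34.DH Pool.Agent.helper76.FV Pool.Agent.helper76.LP
open Pool.Agent.helper76.UR
open Matrix (SpecialLinearGroup)

theorem P4_erase {A B : Type*} [DecidableEq A] [CommMonoid B] (R : List A) (hRn : R.Nodup) (a : A)
    (ha : a ∈ R) (f g : A → B) (h : ∀ q ∈ R, q ≠ a → f q = g q) :
    (R.map f).prod = f a * ((R.erase a).map g).prod := by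
  rw [← List.prod_map_erase f ha]
  congr 2
  apply List.map_congr_left
  intro q hq
  have h1 := (hRn.mem_erase_iff).1 hq
  exact h q h1.2 h1.1

theorem P4_erase_sum {A B : Type*} [DecidableEq A] [AddCommMonoid B] (R : List A)
    (hRn : R.Nodup) (a : A)
    (ha : a ∈ R) (f g : A → B) (h : ∀ q ∈ R, q ≠ a → f q = g q) :
    (R.map f).sum = f a + ((R.erase a).map g).sum := by
  rw [← List.sum_map_erase f ha]
  congr 2
  apply List.map_congr_left
  intro q hq
  have h1 := (hRn.mem_erase_iff).1 hq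
  exact h q h1.2 h1.1

/-- the pattern with one prime twice -/
theorem P4_pat (m : ℕ) [NeZero m] (four : Bool) (h4 : four = true → 4 ∣ m) (R : List ℕ)
    (hRn : R.Nodup) (hR : ∀ p ∈ R, p.Prime ∧ Odd p ∧ p ∣ m) (p₀ : ℕ) (hp₀ : p₀ ∈ R)
    (y : ℕ → ZMod m)
    (hy : ∀ p ∈ R, p • y p = 0) (y2 : ZMod m) (h2 : four = true → (4 : ℕ) • y2 = 0)
    (h2' : four = false → y2 = 0) :
    pat m four (p₀ :: R) ((R.map y).sum + y2) =
      (R.map fun p => if p = p₀ then conv (vp m p₀) (vp m p₀) (y p₀) else vp m p (y p)).prod *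
        (if four = true then kp m y2 else 1) := by
  have h5 : pat m four (p₀ :: R) ((R.map y).sum + y2) =
      ∑ u, vp m p₀ u * pat m four R ((R.map y).sum + y2 - u) := by
    rw [pat]
    rfl
  have h6 : ∀ u : ZMod m, vp m p₀ u * pat m four R ((R.map y).sum + y2 - u) =
      (vp m p₀ u * vp m p₀ (y p₀ - u)) * (((R.erase p₀).map fun p => vp m p (y p)).prod *
        (if four = true then kp m y2 else 1)) := by
    intro u
    by_cases hu : vp m p₀ u = 0
    · rw [hu]; ring
    · have hu' := P0_vp_supp m p₀ (hR p₀ hp₀).2.2 u hu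
      have e1 : (R.map y).sum + y2 - u = (R.map (Function.update y p₀ (y p₀ - u))).sum + y2 := by
        rw [P4_erase_sum R hRn p₀ hp₀ y y (fun _ _ _ => rfl),
          P4_erase_sum R hRn p₀ hp₀ (Function.update y p₀ (y p₀ - u)) y
            (fun q _ hq => Function.update_of_ne hq _ _), Function.update_self]
        abel
      rw [e1, P0_pat m four h4 R hRn hR _ (fun p hp => ?_) y2 h2 h2',
        P4_erase R hRn p₀ hp₀ (fun p => vp m p (Function.update y p₀ (y p₀ - u) p))
          (fun p => vp m p (y p)) (fun q _ hq => by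
            simp only [Function.update_of_ne hq]), Function.update_self]
      · ring
      · by_cases h : p = p₀
        · subst h
          rw [Function.update_self, nsmul_sub, hy p hp, hu', sub_zero]
        · rw [Function.update_of_ne h]
          exact hy p hp
  rw [h5, Finset.sum_congr rfl (fun u _ => h6 u), ← Finset.sum_mul,
    P4_erase R hRn p₀ hp₀
      (fun p => if p = p₀ then conv (vp m p₀) (vp m p₀) (y p₀) else vp m p (y p))
      (fun p => vp m p (y p)) (fun q _ hq => if_neg hq), if_pos rfl, mul_assoc]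
  rfl

theorem pat_prod2 (m D : ℕ) [NeZero m] [NeZero D] (hDm : D ∣ m) (hD : Lform D) (h3 : Three D)
    (R : List ℕ) (p₀ : ℕ) (hp₀ : p₀ ∈ R) (hRn : R.Nodup)
    (hR : ∀ p, p ∈ R ↔ p ∈ D.primeFactors ∧ p ≠ 2) :
    ∃ φ : ℕ → (ZMod D)ˣ → ℤ,
      (∀ z : (ZMod D)ˣ, ((pat m (decide (4 ∣ D)) (p₀ :: R) (LP.emb D m (z : ZMod D)) : ℕ) : ℤ) =
        ∏ p ∈ D.primeFactors, φ p z) ∧
      (∀ p ∈ D.primeFactors, ∀ q ∈ D.primeFactors, q ≠ p → ∀ γ ∈ Gam D q, ∀ z,
        φ p (γ * z) = φ p z) ∧
      (∀ p ∈ D.primeFactors, ∀ ν ∈ Gam D p, ν * ν = 1 → ν ≠ 1 → ∀ z,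
        φ p (ν * z) - φ p z = 1 ∨ φ p (ν * z) - φ p z = -1) := by
  have hex : ∀ q : ℕ, ∃ e : ℕ, q ∈ D.primeFactors →
      e ≡ 1 [MOD ordProj[q] D] ∧ ordCompl[q] D ∣ e := by
    intro q
    by_cases hq : q ∈ D.primeFactors
    · obtain ⟨e, he⟩ := P0_idem D q (Nat.prime_of_mem_primeFactors hq)
      exact ⟨e, fun _ => he⟩
    · exact ⟨0, fun h => absurd h hq⟩
  choose e he using hex
  have hRm : ∀ p ∈ R, p.Prime ∧ Odd p ∧ p ∣ m := by
    intro p hp
    have h1 := (hR p).1 hp
    have h2 := Nat.prime_of_mem_primeFactors h1.1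
    exact ⟨h2, h2.odd_of_ne_two h1.2, (Nat.dvd_of_mem_primeFactors h1.1).trans hDm⟩
  refine ⟨fun q z => if q = 2 then ((kp m (e 2 • LP.emb D m (z : ZMod D)) : ℕ) : ℤ) else
    if q = p₀ then
      ((conv (vp m p₀) (vp m p₀) (e p₀ • LP.emb D m (z : ZMod D)) : ℕ) : ℤ) else
    ((vp m q (e q • LP.emb D m (z : ZMod D)) : ℕ) : ℤ), ?_, ?_, ?_⟩
  · intro z
    rw [P0_split D hD R hRn hR]
    have h1 := P0_decomp m D hDm hD R hRn hR e he z
    conv_lhs => rw [← h1]
    rw [P4_pat m (decide (4 ∣ D)) (fun h => (of_decide_eq_true h).trans hDm) R hRn hRm p₀ hp₀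
      (fun q => e q • LP.emb D m (z : ZMod D))
      (fun p hp => by
        have h2 := (hR p).1 hp
        have h3 := P0_tors m D hDm p (e p) (he p h2.1) z
        rwa [P0_proj_odd D p hD h2.1 h2.2] at h3)
      (if 4 ∣ D then e 2 • LP.emb D m (z : ZMod D) else 0)
      (fun h => by
        have h4 : 4 ∣ D := of_decide_eq_true h
        rw [if_pos h4]
        have h2 : 2 ∈ D.primeFactors :=
          Nat.mem_primeFactors.2 ⟨Nat.prime_two, (by norm_num : 2 ∣ 4).trans h4, NeZero.ne D⟩
        have h3 := P0_tors m D hDm 2 (e 2) (he 2 h2) z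
        rwa [P0_proj_two D hD h4] at h3)
      (fun h => if_neg (of_decide_eq_false h))]
    rw [Nat.cast_mul, Nat.cast_list_prod, List.map_map]
    congr 1
    · congr 1
      apply List.map_congr_left
      intro q hq
      have h2 := ((hR q).1 hq).2
      simp only [Function.comp_apply]
      rw [if_neg h2]
      split_ifs <;> rfl
    · by_cases h4 : 4 ∣ D
      · simp [h4]
      · simp [h4]
  · intro p hp q hq hqp γ hγ z
    have h1 := P0_inv m D hDm p q (e p) hp hq hqp (he p hp) γ hγ z
    by_cases hp2 : p = 2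
    · subst hp2
      simp only [if_true]
      rw [h1]
    · simp only [if_neg hp2]
      by_cases hp0 : p = p₀
      · subst hp0
        simp only [if_true]
        rw [h1]
      · simp only [if_neg hp0]
        rw [h1]
  · intro p hp ν hν h2 h1 z
    have h4 := P0_neg m D hDm p (e p) hp (he p hp) ν (P0_invol D p hD hp ν hν h2 h1) z
    by_cases hp2 : p = 2
    · subst hp2
      simp only [if_true]
      rw [h4]
      have h5 := P0_four D hD hp
      have h6 := P0_tors m D hDm 2 (e 2) (he 2 hp) z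
      rw [P0_proj_two D hD h5] at h6
      have h7 := P0_tors_ne m D hDm 2 (e 2) hp (he 2 hp) z 2 (by
        rw [P0_proj_two D hD h5]; norm_num)
      exact P0_kp_neg m (h5.trans hDm) _ h6 h7
    · simp only [if_neg hp2]
      have hpp := Nat.prime_of_mem_primeFactors hp
      have h6 := P0_tors m D hDm p (e p) (he p hp) z
      have h8 := P0_proj_odd D p hD hp hp2
      rw [h8] at h6
      have h7 := P0_tors_ne m D hDm p (e p) hp (he p hp) z 1 (by
        rw [h8]; exact hpp.one_lt.ne' ∘ Nat.dvd_one.1)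
      rw [one_nsmul] at h7
      have h9 : p % 4 = 3 := by
        rcases h3 p hpp (Nat.dvd_of_mem_primeFactors hp) with h | h
        · exact absurd h hp2
        · exact h
      by_cases hp0 : p = p₀
      · subst hp0
        simp only [if_true]
        rw [h4]
        exact P0_vp2_neg m p hpp ((Nat.dvd_of_mem_primeFactors hp).trans hDm) h9 _ h6 h7
      · simp only [if_neg hp0]
        rw [h4]
        exact P0_vp_neg m p hpp ((Nat.dvd_of_mem_primeFactors hp).trans hDm) h9 _ h6 h7

end Pool.Agent.helper76.MC
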